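import Pool.Agent.Q100.CT.Stm

set_option autoImplicit false

open Set Filter Topology

namespace Pool.Agent.Q237.CT

open Pool.Agent.Q100.CT

theorem walk_bound (B : Form VV ZZ) {a b : PP} (w : (XX B).Walk a b) :
    rho B (io a) (io b) ≤ 7 * (w.length : ℝ) := by
  induction w with
  | nil => simp
  | @cons u v t h p ih =>
    have h1 := rho_tri B (io u) (io v) (io t)
    have h2 : rho B (io u) (io v) ≤ 7 := h.2
    rw [SimpleGraph.Walk.length_cons]
    push_cast
    linarith

theorem step_walk (B : Form VV ZZ) {a b : PP} (h : rho B (io a) (io b) ≤ 7) :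
    ∃ w : (XX B).Walk a b, w.length ≤ 1 := by
  by_cases hab : a = b
  · subst hab
    exact ⟨SimpleGraph.Walk.nil, by simp⟩
  · have h1 : (XX B).Adj a b := ⟨hab, h⟩
    exact ⟨h1.toWalk, by simp⟩

theorem chain_walk (B : Form VV ZZ) (P : ℕ → PP)
    (h : ∀ i, rho B (io (P i)) (io (P (i + 1))) ≤ 7) (n : ℕ) :
    ∃ w : (XX B).Walk (P 0) (P n), w.length ≤ n := by
  induction n with
  | zero => exact ⟨SimpleGraph.Walk.nil, by simp⟩
  | succ n ih =>
    obtain ⟨w, hw⟩ := ih
    obtain ⟨v, hv⟩ := step_walk B (h n)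
    exact ⟨w.append v, by rw [SimpleGraph.Walk.length_append]; omega⟩

theorem dist_of (hnet : S_net) (hchain : S_chain) (θ : ℝ) (hθ : θ ∈ Ioo (0 : ℝ) (1 / 2))
    (a b : PP) : ∃ w : (XX (form θ hθ)).Walk a b,
      (w.length : ℝ) ≤ 11 * rho (form θ hθ) (io a) (io b) + 11 := by
  obtain ⟨n, p, hn, p0, pn, hp⟩ := hchain θ hθ (mul (form θ hθ) (-(io a)) (io b))
  choose Q hQ using fun i => hnet (form θ hθ) (mul (form θ hθ) (io a) (p i))
  have hs : ∀ i, rho (form θ hθ) (io (Q i)) (io (Q (i + 1))) ≤ 7 := by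
    intro i
    have h1 := rho_tri (form θ hθ) (io (Q i)) (mul (form θ hθ) (io a) (p i)) (io (Q (i + 1)))
    have h2 := rho_tri (form θ hθ) (mul (form θ hθ) (io a) (p i))
      (mul (form θ hθ) (io a) (p (i + 1))) (io (Q (i + 1)))
    have h3 := hQ i
    have h4 := hQ (i + 1)
    rw [rho_comm] at h4
    have h5 := hp i
    rw [rho_left] at h2
    linarith
  obtain ⟨w, hw⟩ := chain_walk (form θ hθ) Q hs n
  have h0 := hQ 0
  rw [p0, mulz, rho_comm] at h0
  have h1 := hQ n
  rw [pn, muln_cancel] at h1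
  obtain ⟨u, hu⟩ := step_walk (form θ hθ) (a := a) (b := Q 0) (by linarith)
  obtain ⟨v, hv⟩ := step_walk (form θ hθ) (a := Q n) (b := b) (by linarith)
  refine ⟨(u.append w).append v, ?_⟩
  have h2 : ((u.append w).append v).length ≤ n + 2 := by
    rw [SimpleGraph.Walk.length_append, SimpleGraph.Walk.length_append]
    omega
  have h3 : (((u.append w).append v).length : ℝ) ≤ (n : ℝ) + 2 := by exact_mod_cast h2
  have h4 : nrm (mul (form θ hθ) (-(io a)) (io b)) = rho (form θ hθ) (io a) (io b) := rfl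
  rw [h4] at hn
  have h5 := rho_nonneg (form θ hθ) (io a) (io b)
  linarith

/-- The graph distance is comparable with the distance of the group. -/
theorem dist : S_net → S_chain → S_dist := by
  intro hnet hchain θ hθ
  have hc : (XX (form θ hθ)).Connected := by
    haveI : Nonempty PP := ⟨0⟩
    refine ⟨fun a b => ?_⟩
    obtain ⟨w, _⟩ := dist_of hnet hchain θ hθ a b
    exact ⟨w⟩
  refine ⟨hc, ?_, 11, by norm_num, ?_⟩
  · intro a b
    obtain ⟨w, hw⟩ := hc.exists_walk_length_eq_dist a b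
    rw [← hw]
    exact walk_bound _ w
  · intro a b
    obtain ⟨w, hw⟩ := dist_of hnet hchain θ hθ a b
    have h1 : (XX (form θ hθ)).dist a b ≤ w.length := SimpleGraph.dist_le w
    have h2 : ((XX (form θ hθ)).dist a b : ℝ) ≤ (w.length : ℝ) := by exact_mod_cast h1
    linarith

end Pool.Agent.Q237.CT
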