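import Pool.Agent.Q100.CT.Stm

set_option autoImplicit false

open Set Filter Topology

namespace Pool.Agent.Q237.CT

open Pool.Agent.Q100.CT

/-- Local finiteness and polynomial growth of the graph. -/
theorem growth : S_ball → S_dist → S_growth := by
  intro hball hdist θ hθ
  obtain ⟨hc, h7, C', hC', hd⟩ := hdist θ hθ
  obtain ⟨C, hC⟩ := hball (form θ hθ)
  constructor
  · intro v
    refine (hC (io v) 7 (by norm_num)).1.subset ?_
    intro a ha
    exact ha.2
  · refine ⟨0, C * 7 ^ 12, 12, fun r => ?_⟩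
    have hr : (1 : ℝ) ≤ 7 * ((r : ℝ) + 1) := by
      have : (0 : ℝ) ≤ r := Nat.cast_nonneg r
      linarith
    obtain ⟨hf, hn⟩ := hC (io 0) (7 * ((r : ℝ) + 1)) hr
    have hsub : {w | (XX (form θ hθ)).dist 0 w ≤ r} ⊆
        {a : PP | rho (form θ hθ) (io 0) (io a) ≤ 7 * ((r : ℝ) + 1)} := by
      intro w hw
      have h1 : (XX (form θ hθ)).dist 0 w ≤ r := hw
      have h2 : ((XX (form θ hθ)).dist 0 w : ℝ) ≤ (r : ℝ) := by exact_mod_cast h1
      have h3 := h7 0 w
      show rho (form θ hθ) (io 0) (io w) ≤ 7 * ((r : ℝ) + 1)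
      linarith
    have h1 := Set.ncard_le_ncard hsub hf
    have h2 : ((Set.ncard {w | (XX (form θ hθ)).dist 0 w ≤ r} : ℕ) : ℝ) ≤
        ((C * 7 ^ 12 * (r + 1) ^ 12 : ℕ) : ℝ) := by
      calc ((Set.ncard {w | (XX (form θ hθ)).dist 0 w ≤ r} : ℕ) : ℝ)
          ≤ ((Set.ncard {a : PP | rho (form θ hθ) (io 0) (io a) ≤ 7 * ((r : ℝ) + 1)} : ℕ) : ℝ) := by
            exact_mod_cast h1
        _ ≤ C * (7 * ((r : ℝ) + 1)) ^ 12 := hn
        _ = ((C * 7 ^ 12 * (r + 1) ^ 12 : ℕ) : ℝ) := by
            push_cast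
            ring
    exact_mod_cast h2

/-- Coarse transitivity of the graph. -/
theorem ctr : S_net → S_dist → S_ctr := by
  intro hnet hdist θ hθ
  obtain ⟨hc, h7, C, hC, hd⟩ := hdist θ hθ
  have hC0 : 0 < C := by linarith
  refine ⟨7 * C, 7 * C, by positivity, fun x y => ?_⟩
  set B := form θ hθ with hB
  set g := mul B (io y) (-(io x)) with hg
  choose f hf using fun a : PP => hnet B (mul B g (io a))
  have hf' : ∀ a, rho B (mul B g (io a)) (io (f a)) ≤ 3 := by
    intro a
    rw [rho_comm]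
    exact hf a
  have hup : ∀ a b, rho B (io (f a)) (io (f b)) ≤ rho B (io a) (io b) + 6 := by
    intro a b
    have h1 := rho_tri B (io (f a)) (mul B g (io a)) (io (f b))
    have h2 := rho_tri B (mul B g (io a)) (mul B g (io b)) (io (f b))
    rw [rho_left] at h2
    have h3 := hf a
    have h4 := hf' b
    linarith
  have hlo : ∀ a b, rho B (io a) (io b) ≤ rho B (io (f a)) (io (f b)) + 6 := by
    intro a b
    have h1 := rho_tri B (mul B g (io a)) (io (f a)) (mul B g (io b))
    have h2 := rho_tri B (io (f a)) (io (f b)) (mul B g (io b))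
    rw [rho_left] at h1
    have h3 := hf' a
    have h4 := hf b
    linarith
  refine ⟨f, fun a b => ⟨?_, ?_⟩, fun z => ?_, ?_⟩
  · have h1 := hd a b
    have h2 := hlo a b
    have h3 := h7 (f a) (f b)
    have h4 : ((XX B).dist a b : ℝ) ≤ 7 * C * (((XX B).dist (f a) (f b) : ℝ) + 1) := by
      have h5 : C * rho B (io a) (io b) ≤ C * (7 * ((XX B).dist (f a) (f b) : ℝ) + 6) := by
        apply mul_le_mul_of_nonneg_left _ hC0.le
        linarith
      nlinarith
    have h5 : ((XX B).dist a b : ℝ) / (7 * C) ≤ ((XX B).dist (f a) (f b) : ℝ) + 1 := by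
      rw [div_le_iff₀ (by positivity)]
      linarith
    linarith
  · have h1 := hd (f a) (f b)
    have h2 := hup a b
    have h3 := h7 a b
    have h5 : C * rho B (io (f a)) (io (f b)) ≤ C * (7 * ((XX B).dist a b : ℝ) + 6) := by
      apply mul_le_mul_of_nonneg_left _ hC0.le
      linarith
    nlinarith
  · obtain ⟨a, ha⟩ := hnet B (mul B (-g) (io z))
    refine ⟨a, ?_⟩
    have h1 : rho B (mul B g (io a)) (io z) ≤ 3 := by
      have h2 : rho B (mul B g (io a)) (mul B g (mul B (-g) (io z))) =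
          rho B (io a) (mul B (-g) (io z)) := rho_left B g _ _
      rw [muln_cancel] at h2
      rw [h2]
      exact ha
    have h2 := rho_tri B (io (f a)) (mul B g (io a)) (io z)
    have h3 := hf a
    have h4 := hd (f a) z
    have h5 : C * rho B (io (f a)) (io z) ≤ C * 6 := by
      apply mul_le_mul_of_nonneg_left _ hC0.le
      linarith
    linarith
  · have h1 : mul B g (io x) = io y := by
      rw [hg, mulA, nmul_self, mulz]
    have h2 := hf x
    rw [h1] at h2
    have h4 := hd (f x) y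
    have h5 : C * rho B (io (f x)) (io y) ≤ C * 3 := by
      apply mul_le_mul_of_nonneg_left h2 hC0.le
    linarith

end Pool.Agent.Q237.CT
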